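import Mathlib
import Pool.Agent.V11310.Colored4

namespace Pool.Agent.Results.MP_c46995_nt.Shift

open Pool.Agent.V11310.Colored4

lemma emult_four (k : ℕ) {M : ℤ} (hM : M % 2 = 1) :
    emultiplicity (4 : ℤ) (2 ^ k * M) = ((k / 2 : ℕ) : ℕ∞) := by
  rw [emultiplicity_eq_coe]
  constructor
  · apply Dvd.dvd.mul_right
    rw [show (4 : ℤ) = 2 ^ 2 by norm_num, ← pow_mul]
    exact pow_dvd_pow 2 (by omega)
  · intro h
    rw [show (4 : ℤ) = 2 ^ 2 by norm_num, ← pow_mul] at h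
    have h1 : (2 : ℤ) ^ (k + 1) ∣ 2 ^ k * M := (pow_dvd_pow 2 (by omega)).trans h
    rw [pow_succ] at h1
    have := (mul_dvd_mul_iff_left (by positivity)).1 h1
    omega

lemma S_zero (t : ℕ) : S 4 t 0 = 1 := by
  rw [S_eq, PowerSeries.coeff_zero_eq_constantCoeff_apply]
  simp [G, geom]

/-- `φ₄(S_{4,2^s m+2^{s-1}}(n)) = φ₄(S_{4,2^{s-1}}(n))` for all `s ≥ 3`, `m, n ≥ 0`. -/
theorem result (s m n : ℕ) (hs : 3 ≤ s) :
    emultiplicity (4 : ℤ) (S 4 (2 ^ s * m + 2 ^ (s - 1)) n) =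
      emultiplicity (4 : ℤ) (S 4 (2 ^ (s - 1)) n) := by
  rcases Nat.eq_zero_or_pos n with rfl | hn
  · rw [S_zero, S_zero]
  obtain ⟨a, rfl⟩ : ∃ a, s = a + 1 := ⟨s - 1, by omega⟩
  rw [Nat.add_sub_cancel]
  obtain ⟨M, hM, hS⟩ := valuation (a := a) (u := 2 * m + 1) (by omega) (by omega) hn
  obtain ⟨M', hM', hS'⟩ := valuation (a := a) (u := 1) (by omega) (by norm_num) hn
  rw [mul_one] at hS'
  rw [show 2 ^ (a + 1) * m + 2 ^ a = 2 ^ a * (2 * m + 1) by ring, hS, hS', emult_four _ hM,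
    emult_four _ hM']

end Pool.Agent.Results.MP_c46995_nt.Shift
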